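import Pool.Agent.H.MP_272625_co.B
import Pool.Agent.H.MP_ddf3f5_co.C

set_option autoImplicit false

namespace Pool.Agent.H.MP_af48a1_al

open Pool.Agent.H.Cox Classical

variable {B : Type} [Fintype B] {M : CoxeterMatrix B} {W : Type} [Group W] {cs : CoxeterSystem M W}

theorem order_simple (i j : B) : orderOf (cs.simple i * cs.simple j) = M i j := by
  by_cases hij : i = j
  · subst hij; simp
  have key : ∀ k : ℕ, (cs.simple i * cs.simple j) ^ k = 1 →
      U (Real.cos (Real.pi / M i j)) (2 * k) = 0 ∧ U (Real.cos (Real.pi / M i j)) (2 * k + 1) = 1 := by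
    intro k hk
    have h := pow_e M i j k
    rw [← ρ_simple cs, ← ρ_simple cs, ← map_mul, ← map_pow, hk, ρ_one] at h
    have h1 := congrFun h i
    have h2 := congrFun h j
    simp [e, hij, Ne.symm hij] at h1 h2
    exact ⟨h2.symm, h1.symm⟩
  rcases Nat.eq_zero_or_pos (M i j) with h0 | h0
  · rw [h0, orderOf_eq_zero_iff']
    intro k hk h
    have := (key k h).1
    rw [h0] at this
    simp [U_one] at this
    omega
  · rw [orderOf_eq_iff h0]
    refine ⟨cs.simple_mul_simple_pow i j, fun k hk hk0 h => ?_⟩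
    obtain ⟨h1, h2⟩ := key k h
    have hm : 2 ≤ M i j := by have := M.off_diagonal i j hij; omega
    have hs := sin_pos hm
    have a1 := U_sin (Real.pi / M i j) (2 * k)
    have a2 := U_sin (Real.pi / M i j) (2 * k + 1)
    rw [h1, zero_mul] at a1
    rw [h2, Nat.cast_add, add_mul, Real.sin_add, ← a1] at a2
    have a3 : Real.cos ((2 * k : ℕ) * (Real.pi / M i j)) = 1 :=
      mul_right_cancel₀ hs.ne' (by simpa using a2.symm)
    have hm' : (0 : ℝ) < M i j := by exact_mod_cast h0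
    have hk' : (k : ℝ) < M i j := by exact_mod_cast hk
    have hk0' : (0 : ℝ) < k := by exact_mod_cast hk0
    have hp := Real.pi_pos
    have b1 : 0 < ((2 * k : ℕ) : ℝ) * (Real.pi / M i j) := by positivity
    have b2 : ((2 * k : ℕ) : ℝ) * (Real.pi / M i j) < 2 * Real.pi := by
      rw [mul_div_assoc', div_lt_iff₀ hm']; push_cast; nlinarith
    exact b1.ne' ((Real.cos_eq_one_iff_of_lt_of_lt (by linarith) b2).mp a3)

variable (cs) in
/-- a diagram involution and its linear action -/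
structure Tw (θ : W →* W) (Θ : (B → ℝ) →ₗ[ℝ] (B → ℝ)) : Prop where
  eqv : ∀ u v, Θ (ρ cs u v) = ρ cs (θ u) (Θ v)
  pos : ∀ v, 0 ≤ Θ v ↔ 0 ≤ v
  inv : ∀ v, Θ (Θ v) = v
  root : ∀ β, Root cs β → Root cs (Θ β)
  refl : ∀ t β, Refl cs t β → Refl cs (θ t) (Θ β)
  tt : ∀ u, θ (θ u) = u
  isr : ∀ t, cs.IsReflection t → cs.IsReflection (θ t)

theorem exists_tw (θ : W →* W) (tt : ∀ u, θ (θ u) = u)
    (hS : ∀ i, ∃ j, θ (cs.simple i) = cs.simple j) : ∃ Θ, Tw cs θ Θ := by
  choose p hp using hS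
  have pp : Function.Involutive p := fun i => simple_injective cs (by rw [← hp, ← hp, tt])
  have hg : ∀ i j, g M (p i) (p j) = g M i j := fun i j => by
    rw [g, g, ← order_simple (cs := cs), ← order_simple (cs := cs), ← hp, ← hp, ← map_mul,
      orderOf_injective θ (Function.LeftInverse.injective tt)]
  let Θ := LinearMap.funLeft ℝ ℝ p
  have he : ∀ i, Θ (e i) = e (p i) := fun i => by
    ext j; simp [Θ, e, LinearMap.funLeft_apply, Pi.single_apply, pp.eq_iff, eq_comm]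
  have hb : ∀ i v, b M (p i) (Θ v) = b M i v := fun i v =>
    (Fintype.sum_equiv pp.toPerm _ _ fun j => by simp [Θ, LinearMap.funLeft_apply, hg, pp j]).symm
  have ii : ∀ v, Θ (Θ v) = v := fun v => by ext j; simp [Θ, LinearMap.funLeft_apply, pp j]
  have eqv : ∀ u v, Θ (ρ cs u v) = ρ cs (θ u) (Θ v) := fun u v => by
    induction u using cs.simple_induction_left with
    | one => rw [map_one θ, ρ_one, ρ_one]
    | mul_simple_left w i ih =>
      rw [map_mul θ, ρ_mul, ρ_mul, ← ih, hp, ρ_simple, ρ_simple, σ_apply, σ_apply, map_sub,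
        map_smul, he, hb]
  refine ⟨Θ, eqv, fun v => ⟨fun h j => pp j ▸ h (p j), fun h j => h (p j)⟩, ii, ?_, fun t β h v => ?_,
    tt, ?_⟩
  · rintro _ ⟨w, i, rfl⟩
    exact ⟨θ w, p i, by rw [eqv, he]⟩
  · have : bf M (Θ β) v = bf M β (Θ v) := by
      rw [bf_eq, bf_eq]
      exact Fintype.sum_equiv pp.toPerm _ _ fun j => by
        rw [← ii v, ii (Θ v)]; simp [Θ, LinearMap.funLeft_apply, ← hb (p j), pp j]
    rw [this, ← ii v, ← eqv, h, map_sub, map_smul, ii v]
  · rintro _ ⟨w, i, rfl⟩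
    exact ⟨θ w, p i, by rw [map_mul, map_mul, map_inv, hp]⟩

theorem Root.nn {β : B → ℝ} (h : Root cs β) : 0 ≤ -β ↔ ¬ 0 ≤ β := by
  rw [neg_nonneg]
  exact ⟨fun h1 h2 => PR.not_neg ⟨h, h2⟩ h1, h.sign.resolve_left⟩

theorem lt_iff {t : W} {β : B → ℝ} (hβ : Root cs β) (ht : Refl cs t β) (hr : cs.IsReflection t)
    (z : W) : cs.length (t * z) < cs.length z ↔ ¬ (0 ≤ β ↔ 0 ≤ ρ cs z⁻¹ β) := by
  by_cases h : 0 ≤ β
  · rw [refl_lt_iff ⟨hβ, h⟩ ht hr, N, ← neg_nonneg, Root.nn (hβ.map _)]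
    tauto
  · rw [refl_lt_iff ⟨hβ.neg, (Root.nn hβ).mpr h⟩ ht.neg hr, N, map_neg, neg_nonpos]
    tauto

theorem finite_lt (n : ℕ) : {w : W | cs.length w < n}.Finite :=
  ((Set.finite_Iio n).biUnion fun k _ => finite_len (cs := cs) k).subset fun w hw =>
    Set.mem_biUnion hw rfl

theorem finite_N (w : W) : {β | PR cs β ∧ N cs w β}.Finite := by
  refine Set.Finite.of_finite_image (f := fun β => rf cs β * w)
    ((finite_lt (cs := cs) (cs.length w)).subset ?_) fun β hβ γ hγ h => ?_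
  · rintro _ ⟨β, hβ, rfl⟩
    exact (refl_lt_iff hβ.1 (rf_spec hβ.1.1).2 (rf_spec hβ.1.1).1 w).mpr hβ.2
  · exact Refl.root_unique hβ.1 hγ.1 (rf_spec hβ.1.1).2
      (mul_right_cancel h ▸ (rf_spec hγ.1.1).2)

theorem generic (F : Set (B → ℝ)) (hF : F.Finite) (h0 : 0 ∉ F) :
    ∃ f : B → ℝ, (∀ i, 0 < f i) ∧ ∀ v ∈ F, f ⬝ᵥ v ≠ 0 := by
  have := Subspace.biUnion_ne_univ_of_top_notMem (k := ℝ) (E := B → ℝ)
    (s := hF.toFinset.image fun v => LinearMap.ker (dotProductBilin ℝ ℝ v)) (by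
      simp only [Finset.mem_image, not_exists, not_and, LinearMap.ker_eq_top, Set.Finite.mem_toFinset]
      intro v hv e
      exact h0 (dotProduct_self_eq_zero.mp (LinearMap.congr_fun e v) ▸ hv))
  obtain ⟨p, hp⟩ := (Set.ne_univ_iff_exists_notMem _).mp this
  have hp' : ∀ v ∈ F, v ⬝ᵥ p ≠ 0 := fun v hv e =>
    hp (Set.mem_biUnion (Finset.mem_image_of_mem _ (hF.mem_toFinset.mpr hv)) e)
  obtain ⟨K, h1, h2⟩ := ((Set.Ioi_infinite ‖p‖).diff
    (hF.image fun v => -(v ⬝ᵥ p) / (1 ⬝ᵥ v))).nonempty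
  refine ⟨K • 1 + p, fun i => ?_, fun v hv e => ?_⟩
  · have := (abs_le.mp (norm_le_pi_norm p i)).1
    have h3 : ‖p‖ < K := h1
    simp only [Pi.add_apply, Pi.smul_apply, Pi.one_apply, smul_eq_mul, mul_one]
    linarith
  · rw [add_dotProduct, smul_dotProduct, dotProduct_comm p, smul_eq_mul] at e
    by_cases h : 1 ⬝ᵥ v = 0
    · exact hp' v hv (by simpa [h] using e)
    · exact h2 ⟨v, hv, by rw [div_eq_iff h]; linarith⟩

/-- odd elements of a dihedral subgroup -/
def Od (a c x : W) : Prop := ∃ k : ℤ, x = (a * c) ^ k * a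

theorem od_conj {a c : W} (ha : a * a = 1) (hc : c * c = 1) (k : ℤ) :
    a * (a * c) ^ k = (a * c) ^ (-k) * a := by
  have h1 : a⁻¹ = a := inv_eq_of_mul_eq_one_right ha
  have h2 : c⁻¹ = c := inv_eq_of_mul_eq_one_right hc
  have : a * (a * c) * a⁻¹ = (a * c)⁻¹ := by rw [← mul_assoc, ha, mul_inv_rev, h2, one_mul]
  rw [zpow_neg, ← inv_zpow, ← this, conj_zpow, inv_mul_cancel_right]

theorem Od.mul {a c x y z : W} (ha : a * a = 1) (hc : c * c = 1) (hx : Od a c x) (hy : Od a c y)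
    (hz : Od a c z) : Od a c (x * y * z) := by
  obtain ⟨k, rfl⟩ := hx
  obtain ⟨l, rfl⟩ := hy
  obtain ⟨m, rfl⟩ := hz
  refine ⟨k + -l + m, ?_⟩
  rw [zpow_add, zpow_add, mul_assoc (_ ^ k), ← mul_assoc a, od_conj ha hc, mul_assoc _ a a, ha]
  group

theorem od_left (a c : W) : Od a c a := ⟨0, by simp⟩

theorem od_right {a c : W} (ha : a * a = 1) (hc : c * c = 1) : Od a c c :=
  ⟨-1, by rw [zpow_neg_one, mul_inv_rev, inv_mul_cancel_right, inv_eq_of_mul_eq_one_right hc]⟩

theorem od_root {i j : B} {t : W} {β : B → ℝ} (h : PR cs β) (ht : Refl cs t β)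
    (hs : ∀ k, β k ≠ 0 → k = i ∨ k = j) : Od (cs.simple i) (cs.simple j) t := by
  induction hn : L cs β using Nat.strong_induction_on generalizing β t with
  | _ n ih =>
  obtain ⟨k, h1, h2⟩ := h.exists_desc
  have hk : Od (cs.simple i) (cs.simple j) (cs.simple k) := by
    rcases hs k h1.ne' with rfl | rfl
    exacts [od_left _ _, od_right (cs.simple_mul_simple_self _) (cs.simple_mul_simple_self _)]
  by_cases hi : β = e k
  · rwa [ht.unique (hi ▸ refl_simple k)]
  have h3 := h.L_σ hi h2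
  have h4 := ht.conj (cs.simple k)
  rw [ρ_simple, cs.inv_simple] at h4
  have := (hk.mul (cs.simple_mul_simple_self _) (cs.simple_mul_simple_self _)
    (ih _ (by omega) (h.σ hi) h4 (fun l hl => by
      by_cases e : l = k
      · exact e ▸ hs k h1.ne'
      · exact hs l (by rwa [σ_ne e] at hl)) rfl) hk)
  simpa [mul_assoc] using this

theorem Od.root {i j : B} {t : W} (h : Od (cs.simple i) (cs.simple j) t)
    (l : (B → ℝ) →ₗ[ℝ] ℝ) (hi : l (e i) = 0) (hj : l (e j) = 0) :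
    cs.IsReflection t ∧ ∃ β, Root cs β ∧ Refl cs t β ∧ l β = 0 := by
  have ha := cs.simple_mul_simple_self i
  have hc := cs.simple_mul_simple_self j
  have li : ∀ v, l (ρ cs (cs.simple i) v) = l v := fun v => by simp [ρ_simple, σ_apply, hi]
  have lj : ∀ v, l (ρ cs (cs.simple j) v) = l v := fun v => by simp [ρ_simple, σ_apply, hj]
  have lk : ∀ (m : ℤ) v, l (ρ cs ((cs.simple i * cs.simple j) ^ m) v) = l v := by
    intro m
    induction m using Int.induction_on with
    | zero => simp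
    | succ m ih => intro v; rw [zpow_add_one, ρ_mul, ih, ρ_mul, li, lj]
    | pred m ih =>
      intro v; rw [zpow_sub_one, ρ_mul, ih, mul_inv_rev, cs.inv_simple, cs.inv_simple, ρ_mul, lj, li]
  obtain ⟨k, rfl⟩ := h
  obtain ⟨m, rfl | rfl⟩ := Int.even_or_odd' k
  · have : (cs.simple i * cs.simple j) ^ (2 * m) * cs.simple i = (cs.simple i * cs.simple j) ^ m *
        cs.simple i * ((cs.simple i * cs.simple j) ^ m)⁻¹ := by
      rw [← zpow_neg, mul_assoc, od_conj ha hc]; group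
    rw [this]
    exact ⟨⟨_, _, rfl⟩, _, ⟨_, _, rfl⟩, (refl_simple i).conj _, by rw [lk, hi]⟩
  · have : (cs.simple i * cs.simple j) ^ (2 * m + 1) * cs.simple i =
        (cs.simple i * cs.simple j) ^ m * cs.simple i * cs.simple j *
          ((cs.simple i * cs.simple j) ^ m * cs.simple i)⁻¹ := by
      rw [mul_inv_rev, ← zpow_neg, cs.inv_simple, od_conj ha hc, neg_neg, two_mul, add_right_comm,
        zpow_add, zpow_add_one]
      simp only [mul_assoc]
    rw [this]
    exact ⟨⟨_, _, rfl⟩, _, ⟨_, _, rfl⟩, (refl_simple j).conj _, by rw [ρ_mul, lk, li, hj]⟩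

end Pool.Agent.H.MP_af48a1_al
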