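import Pool.Agent.H.MP_af48a1_al.A

set_option autoImplicit false

namespace Pool.Agent.H.MP_af48a1_al

open Pool.Agent.H.Cox Classical

variable {B : Type} [Fintype B] {M : CoxeterMatrix B} {W : Type} [Group W] {cs : CoxeterSystem M W}
  {θ : W →* W} {Θ : (B → ℝ) →ₗ[ℝ] (B → ℝ)}

variable (cs θ) in
/-- condition (QP1) on the class of `w` -/
def QP1 (w : W) : Prop := ∀ u r, cs.IsReflection r →
  cs.length (r * (u * w * θ u⁻¹) * θ r) = cs.length (u * w * θ u⁻¹) →
    r * (u * w * θ u⁻¹) * θ r = u * w * θ u⁻¹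

theorem QP1.conj {w : W} (h : QP1 cs θ w) (v : W) : QP1 cs θ (v * w * θ v⁻¹) := fun u r hr => by
  have := h (u * v) r hr
  simpa only [mul_inv_rev, map_mul, mul_assoc] using this

theorem Tw.sg (T : Tw cs θ Θ) {w : W} (hw : θ w = w⁻¹) (v : B → ℝ) :
    0 ≤ ρ cs w⁻¹ v ↔ 0 ≤ ρ cs w (Θ v) := by
  rw [← T.pos, T.eqv, map_inv, hw, inv_inv]

theorem Tw.xx (T : Tw cs θ Θ) {w : W} (hw : θ w = w⁻¹) (v : B → ℝ) :
    ρ cs w (Θ (ρ cs w (Θ v))) = v := by
  rw [T.eqv, T.inv, hw, ρ_inv']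

theorem par (T : Tw cs θ Θ) {r : W} (hr : cs.IsReflection r) (w : W) :
    cs.length (r * w * θ r) % 2 = cs.length w % 2 := by
  have h1 := cs.length_mul_mod_two (r * w) (θ r)
  have h2 := cs.length_mul_mod_two r w
  have h3 := Nat.odd_iff.mp hr.odd_length
  have h4 := Nat.odd_iff.mp (T.isr r hr).odd_length
  omega

theorem desc {i j : B} {l : (B → ℝ) →ₗ[ℝ] ℝ} (hi : l (e i) = 0) (hj : l (e j) = 0)
    (hs : ∀ β, PR cs β → l β = 0 → ∀ k, β k ≠ 0 → k = i ∨ k = j) {p r r' : W}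
    (hr : Od (cs.simple i) (cs.simple j) r) (hr' : Od (cs.simple i) (cs.simple j) r')
    (h : cs.length (r * r' * p) + 2 ≤ cs.length p) :
    ∃ s, Od (cs.simple i) (cs.simple j) s ∧ cs.length (s * p) + 1 = cs.length p := by
  have ha := cs.simple_mul_simple_self i
  have hc := cs.simple_mul_simple_self j
  obtain ⟨h1, δ, h2, h3, h4⟩ := ((od_left _ _).mul ha hc hr hr').root l hi hj
  obtain ⟨δ, h2, h3, h4⟩ : ∃ δ, PR cs δ ∧ Refl cs (cs.simple i * r * r') δ ∧ l δ = 0 := by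
    rcases h2.sign with h | h
    · exact ⟨δ, ⟨h2, h⟩, h3, h4⟩
    · exact ⟨-δ, ⟨h2.neg, neg_nonneg.mpr h⟩, h3.neg, by simp [h4]⟩
  have h5 := (refl_lt_iff h2 h3 h1 p).mp (by
    have := cs.length_simple_mul (r * r' * p) i
    simp only [← mul_assoc] at this
    omega)
  by_contra hn
  push Not at hn
  have h6 : ∀ k, k = i ∨ k = j → 0 ≤ ρ cs p⁻¹ (e k) := fun k hk => by
    refine (((root_e k).map _).pr_of_not fun h => hn (cs.simple k) ?_ ?_).2
    · rcases hk with rfl | rfl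
      exacts [od_left _ _, od_right ha hc]
    · have := (simple_lt_iff k p).mpr h
      have := cs.length_simple_mul p k
      omega
  refine PR.not_neg ⟨h2.1.map p⁻¹, ?_⟩ h5
  rw [show δ = ∑ k, δ k • e k by ext m; simp [e, Finset.sum_apply, Pi.single_apply], map_sum]
  refine Finset.sum_nonneg fun k _ => ?_
  rw [map_smul]
  by_cases h : δ k = 0
  · simp [h]
  · exact smul_nonneg (h2.2 k) (h6 k (hs δ h2 h4 k h))

variable (cs θ) in
/-- a two-step path through reflections whose roots are killed by `l` -/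
def Chain (l : (B → ℝ) →ₗ[ℝ] ℝ) (w r : W) : Prop :=
  ∃ t t' γ γ', cs.IsReflection t ∧ cs.IsReflection t' ∧ Root cs γ ∧ Root cs γ' ∧ Refl cs t γ ∧
    Refl cs t' γ' ∧ l γ = 0 ∧ l γ' = 0 ∧ r * w * θ r = t' * (t * w) ∧
    (cs.length (t * w) < cs.length w ↔ cs.length (t' * (t * w)) < cs.length (t * w))

theorem base (T : Tw cs θ Θ) {w r : W} (hw : θ w = w⁻¹) (hQ : QP1 cs θ w) (hr : cs.IsReflection r)
    {α : B → ℝ} (hα : Root cs α) (hrα : Refl cs r α) (hy : r * w * θ r ≠ w) (l : (B → ℝ) →ₗ[ℝ] ℝ)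
    (hZ : ∀ β, Root cs β → (l β = 0 ↔ β ∈ Submodule.span ℝ {α, ρ cs w (Θ α)}))
    (hl : ∀ i, 0 ≤ l (e i)) : Chain cs θ l w r := by
  have supp : ∀ β, PR cs β → l β = 0 → ∀ k, β k ≠ 0 → l (e k) = 0 := by
    intro β h1 h2 k hk
    rw [show β = ∑ k, β k • e k by ext m; simp [e, Finset.sum_apply, Pi.single_apply], map_sum,
      Finset.sum_eq_zero_iff_of_nonneg fun k _ => by
        rw [map_smul]; exact mul_nonneg (h1.2 k) (hl k)] at h2
    simpa [hk] using h2 k (Finset.mem_univ k)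
  have pos : ∀ {t β}, Root cs β → Refl cs t β → l β = 0 → ∃ δ, PR cs δ ∧ Refl cs t δ ∧ l δ = 0 := by
    intro t δ h2 h3 h4
    rcases h2.sign with h | h
    · exact ⟨δ, ⟨h2, h⟩, h3, h4⟩
    · exact ⟨-δ, ⟨h2.neg, neg_nonneg.mpr h⟩, h3.neg, by simp [h4]⟩
  obtain ⟨δ, d1, d2, d3⟩ := pos hα hrα ((hZ α hα).mpr (Submodule.subset_span (by simp)))
  have hα' := (T.root α hα).map w
  obtain ⟨δ', d1', d2', d3'⟩ := pos hα' ((T.refl r α hrα).conj w)
    ((hZ _ hα').mpr (Submodule.subset_span (by simp)))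
  obtain ⟨i, j, hi, hj, hij⟩ : ∃ i j, l (e i) = 0 ∧ l (e j) = 0 ∧
      ∀ k, l (e k) = 0 → k = i ∨ k = j := by
    by_cases h : ∃ i, l (e i) = 0 ∧ ∀ k, l (e k) = 0 → k = i
    · obtain ⟨i, h1, h2⟩ := h
      exact ⟨i, i, h1, h1, fun k hk => .inl (h2 k hk)⟩
    push Not at h
    obtain ⟨i, hi, -⟩ := d1.exists_desc
    have hi := supp δ d1 d3 i hi.ne'
    obtain ⟨j, hj, hji⟩ := h i hi
    refine ⟨i, j, hi, hj, fun k hk => ?_⟩
    by_contra hn
    push Not at hn
    have li : LinearIndependent ℝ (e ∘ ![i, j, k] : Fin 3 → B → ℝ) :=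
      (Pi.linearIndependent_single_one B ℝ).comp _ (by
        intro a b; fin_cases a <;> fin_cases b <;> simp [hji, hji.symm, hn.1, hn.2, hn.1.symm, hn.2.symm])
    have := linearIndependent_le_span_aux' _ li ({α, ρ cs w (Θ α)} : Finset (B → ℝ)) (by
      rintro _ ⟨a, rfl⟩
      rw [Finset.coe_pair]
      refine (hZ _ (root_e _)).mp ?_
      fin_cases a
      exacts [hi, hj, hk])
    have h2 := Finset.card_le_two (a := α) (b := ρ cs w (Θ α))
    simp only [Fintype.card_fin, Finset.coe_sort_coe, Fintype.card_coe] at this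
    omega
  have hs : ∀ β, PR cs β → l β = 0 → ∀ k, β k ≠ 0 → k = i ∨ k = j :=
    fun β h1 h2 k hk => hij k (supp β h1 h2 k hk)
  have o1 := od_root d1 d2 (hs δ d1 d3)
  have o2 := od_root d1' d2' (hs δ' d1' d3')
  have ha := cs.simple_mul_simple_self i
  have hc := cs.simple_mul_simple_self j
  obtain ⟨r', hr'⟩ : ∃ r', r' = w * θ r * w⁻¹ := ⟨_, rfl⟩
  rw [← hr'] at o2
  have ey : r * w * θ r = r * r' * w := by rw [hr']; group
  have hr2 : r' * r' = 1 := (o2.root l hi hj).1.mul_self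
  have hp := par T hr w
  have hne : cs.length (r * w * θ r) ≠ cs.length w := fun h => hy (by simpa using hQ 1 r hr (by simpa))
  have fin : ∀ t t', Od (cs.simple i) (cs.simple j) t → Od (cs.simple i) (cs.simple j) t' →
      r * r' * w = t' * (t * w) →
      (cs.length (t * w) < cs.length w ↔ cs.length (t' * (t * w)) < cs.length (t * w)) →
      Chain cs θ l w r := fun t t' h h' e1 e2 => by
    obtain ⟨a1, γ, a2, a3, a4⟩ := h.root l hi hj
    obtain ⟨b1, γ', b2, b3, b4⟩ := h'.root l hi hj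
    exact ⟨t, t', γ, γ', a1, b1, a2, b2, a3, b3, a4, b4, ey.trans e1, e2⟩
  rw [ey] at hp hne
  rcases hne.lt_or_gt with h | h
  · obtain ⟨s, s1, s2⟩ := desc hi hj hs o1 o2 (p := w) (by omega)
    have e1 : r * r' * w = r * r' * s * (s * w) := by
      rw [mul_assoc _ s, ← mul_assoc s, (s1.root l hi hj).1.mul_self, one_mul]
    refine fin s _ s1 (o1.mul ha hc o2 s1) e1 ?_
    rw [← e1]; omega
  · have e0 : r' * r * (r * r' * w) = w := by
      rw [mul_assoc r', ← mul_assoc r, ← mul_assoc r, hr.mul_self, one_mul, ← mul_assoc, hr2, one_mul]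
    obtain ⟨s, s1, s2⟩ := desc hi hj hs o2 o1 (p := r * r' * w) (by rw [e0]; omega)
    have e1 : r * r' * w = s * (s * r * r' * w) := by
      simp only [← mul_assoc, (s1.root l hi hj).1.mul_self, one_mul]
    refine fin _ s (s1.mul ha hc o1 o2) s1 e1 ?_
    rw [← e1]
    simp only [← mul_assoc] at s2
    omega

theorem reduce (T : Tw cs θ Θ) (n : ℕ) : ∀ {w r : W}, θ w = w⁻¹ → QP1 cs θ w → cs.IsReflection r →
    ∀ {α : B → ℝ}, Root cs α → Refl cs r α → r * w * θ r ≠ w → ∀ l : (B → ℝ) →ₗ[ℝ] ℝ,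
    (∀ β, Root cs β → (l β = 0 ↔ β ∈ Submodule.span ℝ {α, ρ cs w (Θ α)})) →
    {β | PR cs β ∧ l β < 0}.Finite → {β | PR cs β ∧ l β < 0}.ncard = n → Chain cs θ l w r := by
  induction n using Nat.strong_induction_on with
  | _ n ih =>
  intro w r hw hQ hr α hα hrα hy l hZ hF hn
  by_cases hl : ∀ i, 0 ≤ l (e i)
  · exact base T hw hQ hr hα hrα hy l hZ hl
  push Not at hl
  obtain ⟨i, hi⟩ := hl
  obtain ⟨s, hs⟩ : ∃ s, s = cs.simple i := ⟨_, rfl⟩
  have ss : s * s = 1 := hs ▸ cs.simple_mul_simple_self i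
  have si : s⁻¹ = s := inv_eq_of_mul_eq_one_right ss
  have ρs : ∀ v, ρ cs s (ρ cs s v) = v := fun v => by rw [← ρ_mul, ss, ρ_one]
  have X : ∀ v, ρ cs (s * w * θ s⁻¹) (Θ (ρ cs s v)) = ρ cs s (ρ cs w (Θ v)) := fun v => by
    rw [T.eqv, ρ_mul, ρ_mul, map_inv, ρ_inv]
  have sub : ρ cs s '' {β | PR cs β ∧ (l ∘ₗ ρ cs s) β < 0} ⊂ {β | PR cs β ∧ l β < 0} := by
    have ne : ∀ β, (l ∘ₗ ρ cs s) β < 0 → β ≠ e i := fun β h e => by
      rw [e, LinearMap.comp_apply, hs, ρ_simple, σ_self, map_neg] at h; linarith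
    refine ⟨?_, fun h => ?_⟩
    · rintro _ ⟨β, h, rfl⟩
      exact ⟨by rw [hs, ρ_simple]; exact h.1.σ (ne β h.2), h.2⟩
    · obtain ⟨β, h1, h2⟩ := h ⟨pr_e i, hi⟩
      rw [← ρs β, h2, hs, ρ_simple, σ_self] at h1
      exact (pr_e (cs := cs) i).not_neg (neg_nonneg.mp h1.1.2)
  have inj : Function.Injective (ρ cs s) := Function.LeftInverse.injective ρs
  have ey : s * r * s⁻¹ * (s * w * θ s⁻¹) * θ (s * r * s⁻¹) = s * (r * w * θ r) * θ s⁻¹ := by
    simp only [map_mul, map_inv]; group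
  obtain ⟨t, t', γ, γ', a1, a2, a3, a4, a5, a6, a7, a8, a9, a10⟩ := ih _
    (hn ▸ (Set.ncard_image_of_injective _ inj).symm.trans_lt (Set.ncard_lt_ncard sub hF))
    (w := s * w * θ s⁻¹) (r := s * r * s⁻¹)
    (by simp only [map_mul, map_inv, T.tt, hw]; group) (hQ.conj s) (hr.conj s) (hα.map s)
    (hrα.conj s) (fun h => hy (by simpa using ey.symm.trans h)) (l ∘ₗ ρ cs s) (fun β hβ => by
      rw [LinearMap.comp_apply, hZ _ (hβ.map s), X, ← Set.image_pair, ← Submodule.map_span]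
      exact ⟨fun h => ⟨_, h, ρs β⟩, fun ⟨v, h, e⟩ => by rwa [← e, ρs]⟩)
    (Set.Finite.of_finite_image (hF.subset sub.1) inj.injOn) rfl
  have sg : ∀ β, Root cs β → l β = 0 → (0 ≤ ρ cs s β ↔ 0 ≤ β) := by
    have : ∀ β, Root cs β → l β = 0 → 0 ≤ β → 0 ≤ ρ cs s β := fun β h1 h2 h3 => by
      rw [hs, ρ_simple]
      exact (PR.σ ⟨h1, h3⟩ fun e => hi.ne (e ▸ h2)).2
    refine fun β h1 h2 => ⟨fun h => by_contra fun h' => ?_, this β h1 h2⟩
    have := this (-β) h1.neg (by simp [h2]) ((Root.nn h1).mpr h')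
    rw [map_neg, Root.nn (h1.map s)] at this
    exact this h
  have lX : ∀ β, Root cs β → l β = 0 → l (ρ cs w (Θ β)) = 0 := fun β h1 h2 => by
    rw [hZ _ ((T.root β h1).map w)]
    obtain ⟨x, y, rfl⟩ := Submodule.mem_span_pair.mp ((hZ β h1).mp h2)
    exact Submodule.mem_span_pair.mpr ⟨y, x, by simp only [map_add, map_smul, T.xx hw, add_comm]⟩
  have hw' : θ (s * w * θ s⁻¹) = (s * w * θ s⁻¹)⁻¹ := by
    simp only [map_mul, map_inv, T.tt, hw]; group
  have b5 := a5.conj s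
  have b6 := a6.conj s
  have b9 : l (ρ cs (s * t * s⁻¹) (ρ cs s γ')) = 0 := by
    rw [b5, map_sub, map_smul]; simp [show l (ρ cs s γ) = 0 from a7, show l (ρ cs s γ') = 0 from a8]
  refine ⟨_, _, _, _, a1.conj s, a2.conj s, a3.map s, a4.map s, b5, b6, a7, a8, ?_, ?_⟩
  · rw [ey] at a9
    have : r * w * θ r = s⁻¹ * (t' * (t * (s * w * θ s⁻¹))) * θ s := by rw [← a9, map_inv]; group
    calc _ = s⁻¹ * t' * t * s * w := by rw [this, map_inv]; group
      _ = s * t' * t * s⁻¹ * w := by rw [si]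
      _ = _ := by group
  · rw [lt_iff a3 a5 a1, lt_iff a4 a6 a2, mul_inv_rev t, a1.inv, ρ_mul _ _ t, T.sg hw', T.sg hw',
      ← ρs γ, X, ← ρs (ρ cs t γ'), X, sg _ (a3.map s) a7,
      sg _ ((T.root _ (a3.map s)).map w) (lX _ (a3.map s) a7)] at a10
    have e3 : ρ cs (s * t * s⁻¹) (ρ cs s γ') = ρ cs s (ρ cs t γ') := by rw [ρ_mul, ρ_mul, ρ_inv]
    rw [e3] at b9
    rw [sg _ ((T.root _ ((a4.map t).map s)).map w) (lX _ ((a4.map t).map s) b9)] at a10
    rw [lt_iff (a3.map s) b5 (a1.conj s), lt_iff (a4.map s) b6 (a2.conj s), mul_inv_rev _ w,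
      (a1.conj s).inv, ρ_mul _ w⁻¹, e3, T.sg hw, T.sg hw, a10, ← sg _ (a4.map s) a8, ρs]

theorem fin_case (T : Tw cs θ Θ) {w r : W} (hw : θ w = w⁻¹) (hQ : QP1 cs θ w)
    (hr : cs.IsReflection r) (hy : r * w * θ r ≠ w) (hf : IsOfFinOrder (r * (w * θ r * w⁻¹))) :
    ∃ l, Chain cs θ l w r := by
  obtain ⟨α, hα, hrα⟩ := exists_pr hr
  have hα' := (T.root α hα.1).map w
  have hr' := (T.refl r α hrα).conj w
  obtain ⟨u, hu⟩ : ∃ u, u = r * (w * θ r * w⁻¹) := ⟨_, rfl⟩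
  obtain ⟨n, n0, hn⟩ := isOfFinOrder_iff_pow_eq_one.mp hf
  rw [← hu] at hn
  have r2 := ((T.isr r hr).conj w).mul_self
  have ru : r * u = w * θ r * w⁻¹ := by rw [hu, ← mul_assoc, hr.mul_self, one_mul]
  have uru : u * r * u = r := by rw [mul_assoc, ru, hu, mul_assoc r, r2, mul_one]
  let μ : Module.End ℝ (B → ℝ) := ∑ k ∈ Finset.range n, ρ cs (u ^ k)
  have μu : μ * ρ cs u = μ := by
    have h1 := Finset.sum_range_succ (fun k => ρ cs (u ^ k)) n
    rw [Finset.sum_range_succ', hn, pow_zero] at h1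
    simp only [μ, Finset.sum_mul, ← map_mul, ← pow_succ]
    exact add_right_cancel h1
  let S := μ + μ * ρ cs r
  have Sr : S * ρ cs r = S := by
    simp only [S, add_mul, mul_assoc, ← map_mul, hr.mul_self, map_one, mul_one, add_comm]
  have Su : S * ρ cs u = S := by
    simp only [S, add_mul, μu]
    conv_lhs => rw [← μu, mul_assoc, mul_assoc, ← map_mul, ← map_mul, ← mul_assoc u, uru, μu]
  have S0 : ∀ {t β}, Root cs β → Refl cs t β → S * ρ cs t = S → S β = 0 := fun {t β} h1 h2 h3 => by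
    have := LinearMap.congr_fun h3 β
    rw [Module.End.mul_apply, Refl.self h1 h2, map_neg] at this
    exact self_eq_neg.mp this.symm
  have S1 := S0 hα.1 hrα Sr
  have S2 := S0 hα' hr' (by rw [← ru, map_mul, ← mul_assoc, Sr, Su])
  let P := Submodule.span ℝ {α, ρ cs w (Θ α)}
  have Pr : ∀ v, ρ cs r v - v ∈ P := fun v => by
    rw [hrα, sub_sub_cancel_left]
    exact neg_mem (P.smul_mem _ (Submodule.subset_span (by simp)))
  have Pu : ∀ k v, ρ cs (u ^ k) v - v ∈ P := by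
    intro k
    induction k with
    | zero => simp
    | succ k ih =>
      intro v
      have h1 : ρ cs (w * θ r * w⁻¹) v - v ∈ P := by
        rw [hr', sub_sub_cancel_left]
        exact neg_mem (P.smul_mem _ (Submodule.subset_span (by simp)))
      have := add_mem (add_mem (ih (ρ cs u v)) (Pr (ρ cs (w * θ r * w⁻¹) v))) h1
      rw [← ρ_mul cs r, ← hu, ← ρ_mul, ← pow_succ] at this
      simpa using this
  have Sv : ∀ v, S v = ∑ k ∈ Finset.range n, (ρ cs (u ^ k) v + ρ cs (u ^ k * r) v) := fun v => by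
    simp [S, μ, Finset.sum_add_distrib]
  have SP : ∀ v, S v = 0 ↔ v ∈ P := fun v => by
    refine ⟨fun h => ?_, fun h => ?_⟩
    · have : S v - (2 * n : ℝ) • v ∈ P := by
        rw [Sv, mul_comm, mul_smul, Nat.cast_smul_eq_nsmul, ← Finset.card_range n,
          ← Finset.sum_const, Finset.card_range, ← Finset.sum_sub_distrib]
        refine sum_mem fun k _ => ?_
        have := add_mem (add_mem (Pu k v) (Pu k (ρ cs r v))) (Pr v)
        rw [ρ_mul, two_smul]
        exact (by abel : ρ cs (u ^ k) v - v + (ρ cs (u ^ k) (ρ cs r v) - ρ cs r v) +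
          (ρ cs r v - v) = ρ cs (u ^ k) v + ρ cs (u ^ k) (ρ cs r v) - (v + v)) ▸ this
      rwa [h, zero_sub, neg_mem_iff, P.smul_mem_iff (by positivity)] at this
    · obtain ⟨x, y, rfl⟩ := Submodule.mem_span_pair.mp h
      simp [S1, S2]
  let F := ⋃ k ∈ Finset.range n, ({β | PR cs β ∧ N cs (u ^ k)⁻¹ β} ∪ {β | PR cs β ∧ N cs (u ^ k * r)⁻¹ β})
  have hF : F.Finite := (Finset.range n).finite_toSet.biUnion fun k _ =>
    (finite_N _).union (finite_N _)
  obtain ⟨f, f0, f1⟩ := generic (S '' F \ {0}) (hF.image _).diff (by simp)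
  let l : (B → ℝ) →ₗ[ℝ] ℝ := dotProductBilin ℝ ℝ f ∘ₗ S
  have fp : ∀ β, PR cs β → 0 < f ⬝ᵥ β := fun β h => by
    obtain ⟨i, hi, -⟩ := h.exists_desc
    exact Finset.sum_pos' (fun j _ => mul_nonneg (f0 j).le (h.2 j))
      ⟨i, Finset.mem_univ _, mul_pos (f0 i) hi⟩
  have lp : ∀ β, PR cs β → β ∉ F → 0 < l β := fun β h hn => by
    simp only [F, Set.mem_iUnion, Set.mem_union, Set.mem_setOf_eq, h, true_and, N, inv_inv,
      not_exists, not_or] at hn
    change 0 < f ⬝ᵥ S β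
    rw [Sv, dotProduct_sum]
    refine Finset.sum_pos (fun k hk => ?_) ⟨0, Finset.mem_range.mpr n0⟩
    rw [dotProduct_add]
    exact add_pos (fp _ ((h.1.map _).pr_of_not (hn k hk).1)) (fp _ ((h.1.map _).pr_of_not (hn k hk).2))
  have Z : ∀ β, PR cs β → l β = 0 → β ∈ P := fun β h1 h2 => by
    by_contra h
    by_cases h3 : β ∈ F
    · exact f1 _ ⟨⟨β, h3, rfl⟩, fun e => h ((SP β).mp e)⟩ h2
    · exact (lp β h1 h3).ne' h2
  refine ⟨l, reduce T _ hw hQ hr hα.1 hrα hy l (fun β hβ => ⟨fun h => ?_, fun h => ?_⟩)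
    (hF.subset fun β h => by_contra fun h' => (lp β h.1 h').not_gt h.2) rfl⟩
  · rcases hβ.sign with h1 | h1
    · exact Z β ⟨hβ, h1⟩ h
    · exact neg_mem_iff.mp (Z _ ⟨hβ.neg, neg_nonneg.mpr h1⟩ (by simp [h]))
  · simp [l, (SP β).mpr h]

theorem chain (T : Tw cs θ Θ) {w r : W} (hw : θ w = w⁻¹) (hQ : QP1 cs θ w)
    (hr : cs.IsReflection r) (hlt : cs.length (r * w * θ r) < cs.length w) :
    ∃ z, E cs (r * w * θ r) z ∧ E cs z w := by
  have fin : ∀ t t', cs.IsReflection t → cs.IsReflection t' → r * w * θ r = t' * (t * w) →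
      (cs.length (t * w) < cs.length w ↔ cs.length (t' * (t * w)) < cs.length (t * w)) →
      ∃ z, E cs (r * w * θ r) z ∧ E cs z w := fun t t' h h' e1 e2 => by
    have n1 := h.length_mul_right_ne w
    have n2 := h'.length_mul_right_ne (t * w)
    rw [e1] at hlt ⊢
    exact ⟨t * w, ⟨t', h', by rw [← mul_assoc, h'.mul_self, one_mul], by omega⟩,
      t, h, by rw [← mul_assoc, h.mul_self, one_mul], by omega⟩
  by_contra hn
  have nf : ∀ t t', cs.IsReflection t → cs.IsReflection t' → r * w * θ r = t' * (t * w) →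
      ¬ (cs.length (t * w) < cs.length w ↔ cs.length (t' * (t * w)) < cs.length (t * w)) :=
    fun t t' h h' e1 e2 => hn (fin t t' h h' e1 e2)
  suffices IsOfFinOrder (r * (w * θ r * w⁻¹)) by
    obtain ⟨l, t, t', -, -, a1, a2, -, -, -, -, -, -, a3, a4⟩ :=
      fin_case T hw hQ hr (fun h => by rw [h] at hlt; omega) this
    exact nf t t' a1 a2 a3 a4
  obtain ⟨α, ⟨hα, -⟩, hrα⟩ := exists_pr hr
  have hβ := ((T.root α hα).map w).neg
  have hr' := ((T.refl r α hrα).conj w).neg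
  have i' := (T.isr r hr).conj w
  obtain ⟨β, eβ⟩ : ∃ β, β = -ρ cs w (Θ α) := ⟨_, rfl⟩
  obtain ⟨r', er⟩ : ∃ r', r' = w * θ r * w⁻¹ := ⟨_, rfl⟩
  rw [← eβ] at hβ hr'
  rw [← er] at hr' i' ⊢
  obtain ⟨u, hu⟩ : ∃ u, u = r * r' := ⟨_, rfl⟩
  have ey : r * w * θ r = u * w := by rw [hu, er]; group
  have h1 := hr.mul_self
  have h2 := i'.mul_self
  have c1 : ∀ k : ℤ, r * u ^ k = u ^ (-k) * r := hu ▸ od_conj h1 h2
  have ur : r' = r * u := by rw [hu, ← mul_assoc, h1, one_mul]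
  have xu : ∀ (k : ℤ) v, ρ cs w (Θ (ρ cs (u ^ k) v)) = ρ cs (u ^ (-k)) (ρ cs w (Θ v)) := by
    intro k v
    have : w * θ u * w⁻¹ = u⁻¹ := by
      rw [hu, mul_inv_rev, hr.inv, i'.inv, map_mul, er]
      simp only [map_mul, map_inv, T.tt, hw]; group
    rw [T.eqv, ← ρ_mul, ← ρ_mul, zpow_neg, ← inv_zpow, ← this, conj_zpow, map_zpow,
      inv_mul_cancel_right]
  let a : ℤ → Prop := fun k => 0 ≤ ρ cs (u ^ k) α
  let b : ℤ → Prop := fun k => 0 ≤ ρ cs (u ^ k) β
  have xa : ∀ k : ℤ, 0 ≤ ρ cs w (Θ (ρ cs (u ^ k) α)) ↔ ¬ b (-k) := fun k => by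
    rw [xu, ← neg_neg (ρ cs w _), ← eβ, map_neg, Root.nn (hβ.map _)]
  have xb : ∀ k : ℤ, 0 ≤ ρ cs w (Θ (ρ cs (u ^ k) β)) ↔ ¬ a (-k) := fun k => by
    rw [xu, eβ, map_neg, map_neg, T.xx hw, map_neg, Root.nn (hα.map _)]
  have ra : ∀ k : ℤ, ρ cs r (ρ cs (u ^ k) α) = -ρ cs (u ^ (-k)) α := fun k => by
    rw [← ρ_mul, c1, ρ_mul, Refl.self hα hrα, map_neg]
  have e1 : ∀ k : ℤ, ¬ (¬ (b k ↔ ¬ a (-k)) ↔ ¬ (a k ↔ ¬ ¬ b (-(k - 1)))) := fun k => by
    have := nf _ _ (i'.conj (u ^ k)) (hr.conj (u ^ k)) (by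
      rw [ey, ← mul_assoc, conj_mul, ← hu]; group)
    have e : ρ cs (u ^ k * r' * (u ^ k)⁻¹) (ρ cs (u ^ k) α) = -ρ cs (u ^ (k - 1)) α := by
      rw [ρ_mul, ρ_inv, ur, ← mul_assoc, ← zpow_one u, ← zpow_mul, mul_assoc, c1, ← mul_assoc,
        ← zpow_add, ρ_mul, Refl.self hα hrα, map_neg]
      simp [sub_eq_add_neg]
    rwa [lt_iff (hβ.map _) (hr'.conj _) (i'.conj _), lt_iff (hα.map _) (hrα.conj _) (hr.conj _),
      mul_inv_rev _ w, (i'.conj _).inv, ρ_mul _ w⁻¹, e, T.sg hw, T.sg hw, xb, map_neg, map_neg,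
      Root.nn ((T.root _ (hα.map _)).map _), xa] at this
  have e2 : ∀ k : ℤ, ¬ (¬ (a k ↔ ¬ b (-k)) ↔ ¬ (b (k + 1) ↔ ¬ ¬ a (-k))) := fun k => by
    have := nf _ _ (hr.conj (u ^ k)) (i'.conj (u ^ (k + 1))) (by
      have : u * r' * u⁻¹ * r = u := by
        rw [hu, mul_assoc r r' r', h2, mul_one, mul_inv_rev, hr.inv, i'.inv, mul_assoc, mul_assoc, h1,
          mul_one]
      rw [ey]
      calc u * w = u ^ k * (u * r' * u⁻¹ * r) * (u ^ k)⁻¹ * w := by rw [this]; group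
        _ = _ := by group)
    have e : ρ cs (u ^ k * r * (u ^ k)⁻¹) (ρ cs (u ^ (k + 1)) β) = -ρ cs (u ^ k) β := by
      rw [← ρ_mul, zpow_add_one, ← mul_assoc, inv_mul_cancel_right, mul_assoc, ← ur, ρ_mul,
        Refl.self hβ hr', map_neg]
    rwa [lt_iff (hα.map _) (hrα.conj _) (hr.conj _), lt_iff (hβ.map _) (hr'.conj _) (i'.conj _),
      mul_inv_rev _ w, (hr.conj _).inv, ρ_mul _ w⁻¹, e, T.sg hw, T.sg hw, xa, map_neg, map_neg,
      Root.nn ((T.root _ (hβ.map _)).map _), xb] at this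
  have A : ∀ k : ℕ, a k ↔ a (-k) := by
    intro k
    induction k with
    | zero => simp
    | succ k ih =>
      have h1 := e1 (k + 1)
      have h2 := e2 k
      rw [add_sub_cancel_right] at h1
      push_cast
      tauto
  have len : ∀ k : ℕ, cs.length ((u ^ 2) ^ k) < cs.length r := fun k => by
    have := (lt_iff (hα.map _) (hrα.conj (u ^ (k : ℤ))) (hr.conj _) r).mpr (by
      rw [hr.inv, ra, Root.nn (hα.map _)]
      have := A k
      tauto)
    rwa [← zpow_neg, mul_assoc, mul_assoc, ← c1, ← mul_assoc r, h1, one_mul, zpow_natCast,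
      ← pow_add, ← two_mul, pow_mul] at this
  rw [← hu]
  refine (finite_powers.mp ((finite_lt (cs := cs) (cs.length r)).subset ?_)).of_pow two_ne_zero
  rintro _ ⟨k, rfl⟩
  exact len k

theorem lift_l {z x : W} (h : E cs z x) (i : B) (h1 : cs.length (cs.simple i * x) < cs.length x)
    (h2 : cs.length z < cs.length (cs.simple i * z)) (h3 : cs.length x = cs.length z + 1) :
    x = cs.simple i * z := by
  rcases h.simple_mul i with h | ⟨t, -, -, h⟩
  · exact h
  · omega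

theorem lift_r {z x : W} (h : E cs z x) (i : B) (h1 : cs.length (x * cs.simple i) < cs.length x)
    (h2 : cs.length z < cs.length (z * cs.simple i)) (h3 : cs.length x = cs.length z + 1) :
    x = z * cs.simple i := by
  obtain ⟨t, ht, rfl, hl⟩ := h
  have e : ∀ y, cs.length (cs.simple i * y⁻¹) = cs.length (y * cs.simple i) := fun y => by
    rw [← cs.length_inv, mul_inv_rev, inv_inv, cs.inv_simple]
  have := lift_l (z := z⁻¹) (x := (t * z)⁻¹) ⟨_, ht.conj z⁻¹, by rw [mul_inv_rev, ht.inv]; group,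
    by rwa [cs.length_inv, cs.length_inv]⟩ i (by rwa [e, cs.length_inv])
    (by rwa [e, cs.length_inv]) (by rwa [cs.length_inv, cs.length_inv])
  rw [← inv_inj, this, mul_inv_rev, cs.inv_simple]

theorem qp2 (T : Tw cs θ Θ) {w r : W} (hw : θ w = w⁻¹) (hQ : QP1 cs θ w) (hr : cs.IsReflection r)
    {i j : B} (hj : θ (cs.simple i) = cs.simple j) (h1 : cs.length w < cs.length (r * w * θ r))
    (h2 : cs.length (cs.simple i * (r * w * θ r) * cs.simple j) <
      cs.length (cs.simple i * w * cs.simple j)) : r * w * θ r = cs.simple i * w * cs.simple j := by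
  have p1 := par T hr w
  have p2 := par T (cs.isReflection_simple i) w
  have p3 := par T (cs.isReflection_simple i) (r * w * θ r)
  rw [hj] at p2 p3
  have e : r * (r * w * θ r) * θ r = w := by
    rw [← mul_assoc, ← mul_assoc, hr.mul_self, one_mul, mul_assoc, (T.isr r hr).mul_self, mul_one]
  obtain ⟨z, z1, z2⟩ := chain T (w := r * w * θ r) (by
    simp only [map_mul, T.tt, hw, mul_inv_rev, hr.inv, (T.isr r hr).inv, mul_assoc])
    (by simpa only [hr.inv] using hQ.conj r) hr (by rwa [e])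
  rw [e] at z1
  generalize r * w * θ r = x at *
  have a1 := cs.length_simple_mul x i
  have a2 := cs.length_mul_simple (cs.simple i * x) j
  have a3 := cs.length_mul_simple x j
  have a4 := cs.length_simple_mul (x * cs.simple j) i
  have b1 := cs.length_simple_mul w i
  have b2 := cs.length_mul_simple (cs.simple i * w) j
  have b3 := cs.length_mul_simple w j
  have b4 := cs.length_simple_mul (w * cs.simple j) i
  rw [← mul_assoc] at a4 b4
  have c1 := z1.choose_spec.2.2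
  have c2 := z2.choose_spec.2.2
  have ss := cs.simple_mul_simple_self
  rcases cs.length_simple_mul z i with l | l <;> rcases cs.length_mul_simple z j with m | m
  · have e1 := lift_l z2 i (by omega) (by omega) (by omega)
    have e2 := lift_r z2 j (by omega) (by omega) (by omega)
    have : cs.simple i * x * cs.simple j = x := by
      conv_lhs => rw [e1, ← mul_assoc, ss, one_mul, ← e2]
    rw [this] at h2 a2
    omega
  · rw [lift_l z2 i (by omega) (by omega) (by omega), lift_r z1 j (by omega) (by omega) (by omega),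
      mul_assoc]
  · rw [lift_r z2 j (by omega) (by omega) (by omega), lift_l z1 i (by omega) (by omega) (by omega)]
  · have e1 := lift_l z1 i (by omega) (by omega) (by omega)
    have e2 := lift_r z1 j (by omega) (by omega) (by omega)
    have : cs.simple i * w * cs.simple j = w := by rw [← e1, e2, mul_assoc, ss, mul_one]
    rw [this] at h2 b2
    omega

end Pool.Agent.H.MP_af48a1_al
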