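import Pool.Agent.H.MP_af48a1_al.B

set_option autoImplicit false

namespace Pool.Agent.H.MP_af48a1_al

open Pool.Agent.H.Cox Classical

variable {B C : Type} {M : CoxeterMatrix B} {W : Type} [Group W]
  {M' : CoxeterMatrix C} {W' : Type} [Group W']

/-- a standard parabolic embedding -/
structure Emb (cs : CoxeterSystem M W) (cs' : CoxeterSystem M' W') (f : C → B) (φ : W' →* W) :
    Prop where
  inj : Function.Injective f
  mat : ∀ i j, M' i j = M (f i) (f j)
  sim : ∀ i, φ (cs'.simple i) = cs.simple (f i)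

variable {cs : CoxeterSystem M W} {cs' : CoxeterSystem M' W'} {f : C → B} {φ : W' →* W}

variable (cs) in
/-- contragredient representation -/
noncomputable def TT : W →* Module.End ℝ (B → ℝ) := cs.lift ⟨τ M, τ_liftable M⟩

theorem Emb.pair [Fintype C] (h : Emb cs cs' f φ) (y : W') (v : B → ℝ) (x : C → ℝ) :
    ∑ c, TT cs (φ y) v (f c) * x c = ∑ c, v (f c) * ρ cs' y⁻¹ x c := by
  induction y using cs'.simple_induction_left generalizing x with
  | one => simp
  | mul_simple_left w i ih =>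
    rw [mul_inv_rev, ρ_mul, cs'.inv_simple, ρ_simple, ← ih, map_mul, map_mul, h.sim,
      Module.End.mul_apply]
    have : TT cs (cs.simple (f i)) = τ M (f i) := cs.lift_apply_simple (τ_liftable M) _
    rw [this, τ_apply, σ_apply]
    have hg : ∀ c, g M (f i) (f c) = g M' i c := fun c => by rw [g, g, h.mat]
    simp only [Pi.sub_apply, Pi.smul_apply, smul_eq_mul, sub_mul, mul_sub, Finset.sum_sub_distrib,
      hg, b, e, Pi.single_apply, mul_ite, mul_one, mul_zero, Finset.sum_ite_eq', Finset.mem_univ,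
      if_true, Finset.mul_sum]
    congr 1
    exact Finset.sum_congr rfl fun c _ => by ring

theorem Emb.injective [Fintype C] (h : Emb cs cs' f φ) : Function.Injective φ := by
  rw [injective_iff_map_eq_one]
  intro y hy
  rw [← inv_eq_one]
  refine faithful cs' _ fun x => funext fun c => ?_
  have := h.pair y (Pi.single (f c) 1) x
  rw [hy, map_one] at this
  simpa [Pi.single_apply, h.inj.eq_iff] using this.symm

theorem Emb.len_fin [Fintype C] [Fintype B] (h : Emb cs cs' f φ) (y : W') :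
    cs.length (φ y) = cs'.length y := by
  induction hn : cs'.length y using Nat.strong_induction_on generalizing y with
  | _ n ih =>
  by_cases hy : y = 1
  · subst hy; simpa using hn
  obtain ⟨j, hj⟩ := cs'.exists_rightDescent_of_ne_one hy
  unfold CoxeterSystem.IsRightDescent at hj
  have h1 := ih _ (by omega) (y * cs'.simple j) rfl
  have h2 := neg_of_lt cs' y j hj
  have h3 : ρ cs (φ y) (e (f j)) ≤ 0 := fun k => by
    have a1 := h.pair y⁻¹ (Pi.single k 1) (e j)
    have a2 := Emb.pair (cs := cs) (cs' := cs) (f := id) (φ := MonoidHom.id W)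
      ⟨Function.injective_id, fun _ _ => rfl, fun _ => rfl⟩ (φ y)⁻¹ (Pi.single k 1) (e (f j))
    simp [e, Pi.single_apply] at a1 a2
    simp only [e, ← a2, a1, Pi.zero_apply]
    exact Finset.sum_nonpos fun c _ => by split_ifs; exacts [h2 c, le_rfl]
  rw [map_mul, h.sim] at h1
  rcases cs.length_mul_simple (φ y) (f j) with a | a
  · exact absurd h3 (PR.not_neg ⟨(root_e _).map _, pos_of_lt cs _ _ (by omega)⟩)
  · rcases cs'.length_mul_simple y j with a' | a' <;> omega

variable (M) in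
/-- restricted matrix -/
def sub (J : Finset B) : CoxeterMatrix J where
  M i j := M i j
  isSymm := by ext i j; exact M.symmetric _ _
  diagonal i := M.diagonal i
  off_diagonal i j h := M.off_diagonal _ _ fun h' => h (Subtype.ext h')

theorem exists_emb (hf : Function.Injective f) (hm : ∀ i j, M' i j = M (f i) (f j))
    (cs : CoxeterSystem M W) (cs' : CoxeterSystem M' W') : ∃ φ, Emb cs cs' f φ :=
  ⟨cs'.lift ⟨fun i => cs.simple (f i), fun i j => by rw [hm]; exact cs.simple_mul_simple_pow _ _⟩,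
    hf, hm, fun i => cs'.lift_apply_simple _ i⟩

theorem Emb.word (h : Emb cs cs' f φ) (ω : List C) :
    φ (cs'.wordProd ω) = cs.wordProd (ω.map f) := by
  induction ω with
  | nil => simp
  | cons i ω ih => rw [List.map_cons, cs.wordProd_cons, cs'.wordProd_cons, map_mul, ih, h.sim]

theorem Emb.cover {J : Finset B} {cs' : CoxeterSystem (sub M J) (sub M J).Group}
    {φ : (sub M J).Group →* W} (h : Emb cs cs' Subtype.val φ) (ω : List B) (hω : ∀ i ∈ ω, i ∈ J) :
    ∃ y, φ y = cs.wordProd ω ∧ cs'.length y ≤ ω.length :=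
  ⟨cs'.wordProd (ω.attachWith _ hω), by rw [h.word]; simp, by
    simpa using cs'.length_wordProd_le (ω.attachWith _ hω)⟩

theorem Emb.len [Fintype C] (h : Emb cs cs' f φ) (y : W') :
    cs.length (φ y) = cs'.length y := by
  apply le_antisymm
  · obtain ⟨ω, h1, rfl⟩ := cs'.exists_isReduced y
    rw [h.word, h1.eq]
    simpa using cs.length_wordProd_le (ω.map f)
  obtain ⟨ω, h1, h2⟩ := cs.exists_isReduced (φ y)
  let J : Finset B := Finset.univ.image f ∪ ω.toFinset
  obtain ⟨χ, h3⟩ := exists_emb (M' := sub M J) Subtype.val_injective (fun _ _ => rfl) cs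
    (sub M J).toCoxeterSystem
  let ι : C → J := fun c => ⟨f c, by simp [J]⟩
  obtain ⟨ψ, h4⟩ := exists_emb (f := ι) (M := sub M J)
    (fun a c hc => h.inj (congrArg Subtype.val hc)) h.mat (sub M J).toCoxeterSystem cs'
  obtain ⟨z, h5, h6⟩ := h3.cover ω (by simp +contextual [J])
  have h7 : χ.comp ψ = φ := cs'.ext_simple fun i => by
    rw [MonoidHom.comp_apply, h4.sim, h3.sim, h.sim]
  have h8 : z = ψ y := h3.injective (by rw [h5, ← h2, ← h7]; rfl)
  rw [← h4.len_fin, ← h8, h2, h1.eq]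
  exact h6

theorem Emb.isr (h : Emb cs cs' f φ) {t : W'} (ht : cs'.IsReflection t) :
    cs.IsReflection (φ t) := by
  obtain ⟨w, i, rfl⟩ := ht
  exact ⟨φ w, f i, by rw [map_mul, map_mul, map_inv, h.sim]⟩

/-- reduction to finite rank -/
theorem reduction (cs : CoxeterSystem M W) (θ : W →* W) (tt : ∀ u, θ (θ u) = u)
    (hS : ∀ i, ∃ j, θ (cs.simple i) = cs.simple j) (ω : List B) :
    ∃ (J : Finset B) (φ : (sub M J).Group →* W) (θ' : (sub M J).Group →* (sub M J).Group),
      Emb cs (sub M J).toCoxeterSystem Subtype.val φ ∧ (∀ i ∈ ω, i ∈ J) ∧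
      (∀ u, φ (θ' u) = θ (φ u)) ∧ ∃ Θ, Tw (sub M J).toCoxeterSystem θ' Θ := by
  choose p hp using hS
  have pp : Function.Involutive p := fun i => simple_injective cs (by rw [← hp, ← hp, tt])
  let J : Finset B := ω.toFinset ∪ ω.toFinset.image p
  obtain ⟨φ, h⟩ := exists_emb (M' := sub M J) Subtype.val_injective (fun _ _ => rfl) cs
    (sub M J).toCoxeterSystem
  have hJ : ∀ i ∈ J, p i ∈ J := fun i hi => by
    simp only [J, Finset.mem_union, Finset.mem_image] at hi ⊢
    rcases hi with hi | ⟨k, hk, rfl⟩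
    · exact Or.inr ⟨i, hi, rfl⟩
    · exact Or.inl (by rwa [pp k])
  let q : J → J := fun i => ⟨p i, hJ _ i.2⟩
  have hl : (sub M J).IsLiftable fun i => (sub M J).toCoxeterSystem.simple (q i) := fun i j =>
    h.injective (by
      rw [map_pow, map_mul, h.sim, h.sim, map_one, ← hp, ← hp, ← map_mul, ← map_pow]
      exact (congrArg θ (cs.simple_mul_simple_pow i j)).trans (map_one θ))
  let θ' := (sub M J).toCoxeterSystem.lift ⟨_, hl⟩
  have hθ : ∀ i, θ' ((sub M J).toCoxeterSystem.simple i) = _ := fun i =>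
    (sub M J).toCoxeterSystem.lift_apply_simple hl i
  have h1 : φ.comp θ' = θ.comp φ := (sub M J).toCoxeterSystem.ext_simple fun i => by
    rw [MonoidHom.comp_apply, MonoidHom.comp_apply, hθ, h.sim, h.sim, hp]
  have h2 : ∀ u, φ (θ' u) = θ (φ u) := fun u => DFunLike.congr_fun h1 u
  exact ⟨J, φ, θ', h, by simp +contextual [J], h2,
    exists_tw θ' (fun u => h.injective (by rw [h2, h2, tt])) fun i => ⟨_, hθ i⟩⟩

variable {θ : W →* W}

theorem setup (tt : ∀ u, θ (θ u) = u) (hS : ∀ i, ∃ j, θ (cs.simple i) = cs.simple j) {w r : W}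
    (hw : θ w = w⁻¹) (hQ : QP1 cs θ w) (hr : cs.IsReflection r) (i : B) :
    ∃ (J : Finset B) (φ : (sub M J).Group →* W) (θ' : (sub M J).Group →* (sub M J).Group)
      (Θ : (J → ℝ) →ₗ[ℝ] (J → ℝ)) (w' r' : (sub M J).Group),
      Emb cs (sub M J).toCoxeterSystem Subtype.val φ ∧ i ∈ J ∧
      (∀ u, φ (θ' u) = θ (φ u)) ∧ Tw (sub M J).toCoxeterSystem θ' Θ ∧ φ w' = w ∧ φ r' = r ∧
      θ' w' = w'⁻¹ ∧ QP1 (sub M J).toCoxeterSystem θ' w' ∧
      (sub M J).toCoxeterSystem.IsReflection r' := by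
  obtain ⟨v, k, rfl⟩ := hr
  obtain ⟨ω, rfl⟩ := cs.wordProd_surjective w
  obtain ⟨ν, rfl⟩ := cs.wordProd_surjective v
  obtain ⟨J, φ, θ', h, hJ, h2, Θ, T⟩ := reduction cs θ tt hS (i :: k :: (ω ++ ν))
  obtain ⟨w', h3, -⟩ := h.cover ω fun a ha => hJ a (by simp [ha])
  obtain ⟨v', h4, -⟩ := h.cover ν fun a ha => hJ a (by simp [ha])
  refine ⟨J, φ, θ', Θ, w', _, h, hJ i (by simp), h2, T, h3, ?_, h.injective ?_, fun u r hr hl =>
    h.injective ?_, v', ⟨k, hJ k (by simp)⟩, rfl⟩
  · rw [map_mul, map_mul, map_inv, h4, h.sim]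
  · rw [h2, map_inv, h3, hw]
  · rw [← h.len, ← h.len] at hl
    simp only [map_mul, map_inv, h2, h3] at hl ⊢
    simpa only [map_inv] using hQ (φ u) (φ r) (h.isr hr) (by simpa only [map_inv] using hl)

theorem chain' (tt : ∀ u, θ (θ u) = u) (hS : ∀ i, ∃ j, θ (cs.simple i) = cs.simple j) {w r : W}
    (hw : θ w = w⁻¹) (hQ : QP1 cs θ w) (hr : cs.IsReflection r)
    (hlt : cs.length (r * w * θ r) < cs.length w) : ∃ z, E cs (r * w * θ r) z ∧ E cs z w := by
  obtain ⟨_, i, -⟩ := id hr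
  obtain ⟨J, φ, θ', Θ, w', r', h, -, h2, T, rfl, rfl, h3, h4, h5⟩ := setup tt hS hw hQ hr i
  rw [← h2, ← map_mul, ← map_mul] at hlt ⊢
  rw [h.len, h.len] at hlt
  obtain ⟨z, h6, h7⟩ := chain T h3 h4 h5 hlt
  have : ∀ a c, E (sub M J).toCoxeterSystem a c → E cs (φ a) (φ c) := by
    rintro a c ⟨t, a1, rfl, a2⟩
    exact ⟨φ t, h.isr a1, map_mul _ _ _, by rwa [h.len, h.len]⟩
  exact ⟨φ z, this _ _ h6, this _ _ h7⟩

theorem qp2' (tt : ∀ u, θ (θ u) = u) (hS : ∀ i, ∃ j, θ (cs.simple i) = cs.simple j) {w r : W}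
    (hw : θ w = w⁻¹) (hQ : QP1 cs θ w) (hr : cs.IsReflection r) (i : B)
    (h1 : cs.length w < cs.length (r * w * θ r))
    (h2 : cs.length (cs.simple i * (r * w * θ r) * θ (cs.simple i)) <
      cs.length (cs.simple i * w * θ (cs.simple i))) :
    r * w * θ r = cs.simple i * w * θ (cs.simple i) := by
  obtain ⟨J, φ, θ', Θ, w', r', h, hi, h6, T, rfl, rfl, h3, h4, h5⟩ := setup tt hS hw hQ hr i
  obtain ⟨j, hj⟩ : ∃ j, θ' ((sub M J).toCoxeterSystem.simple ⟨i, hi⟩) =
      (sub M J).toCoxeterSystem.simple j := by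
    have a := T.isr _ ((sub M J).toCoxeterSystem.isReflection_simple ⟨i, hi⟩)
    obtain ⟨k, hk⟩ := hS i
    rw [← CoxeterSystem.length_eq_one_iff, ← h.len, h6, h.sim, hk, cs.length_simple]
  rw [← h.sim ⟨i, hi⟩] at h2 ⊢
  simp only [← h6, ← map_mul, h.len] at h1 h2 ⊢
  rw [hj] at h2 ⊢
  rw [qp2 T h3 h4 h5 hj h1 h2]

end Pool.Agent.H.MP_af48a1_al
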